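import Pool.Agent.W5h13.HW.Main

/-!
# MP_63e8ca_gt, Q1: consistently there is an `HFC_w` space which is not dually discrete

* Some forcing notion preserves `ω₁` and forces Jensen's diamond (starting files).
* Diamond implies that there is an `HFC_w` subspace of `2 ^ ω₁` which is not dually discrete.

So it is not provable in ZFC that every `HFC_w` space is dually discrete.

Idea of the proof.  The space is `{x_β : β < ω₁}`, `x_β(γ) = c(β, γ)` for a matrix `c` with
`c(β, β) = 1`, and the neighbourhood of `x_β` is the set of the points whose coordinate number `β` is
`1`.  The row and the column number `β` are constructed by recursion on `β`.  Diamond guesses, at the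
stage `β`, a set `a ⊆ β` of indices and countably many families of pairwise disjoint finite subsets
of `β`.  If `{x_α : α ∈ a}` is discrete in the coordinates below `β` then the row `β` vanishes on `a`,
so that `x_β` is not in the neighbourhoods of the points `x_α`, `α ∈ a`.  Otherwise the row is
generic for the families guessed up to the stage `β` which have infinitely many members disjoint
from `a`, and the column is generic for all these families.  By the genericity of the columns all
but countably many members of an uncountable family `𝓕` of pairwise disjoint `n`-element sets are
accumulation points of the family in the `n`-th power of the space; iterating this `n + 1` times one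
finds a guessed countable trace of `𝓕` which is not covered, up to finitely many members, by the
sets which meet a given discrete set of indices.  So all the later rows are generic for this trace,
and the space is an `HFC_w` space; its discrete subsets are countable and so they are all guessed.
-/

set_option autoImplicit false

namespace Pool.Agent.Results.MP_63e8ca_gt.ConsistentlyNot

open Pool.Agent.W5h13.HW

/-- (1) Some notion of forcing `P` forces that `ω₁` is preserved and that diamond holds.
(2) Diamond implies that there is an `HFC_w` subspace of the Cantor cube `2 ^ ω₁` which is not
dually discrete. -/
theorem result :
    (∃ (P : Type) (_ : Preorder P), Nonempty P ∧ ∀ p : P,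
      p ∈ Pool.Agent.Helper292.ForceCH.OmegaOnePreserved P ∧
      p ∈ Pool.Agent.Helper292.ForceCH.DiamondHolds P) ∧
    (Diamond → ∃ X : Set (Om → Bool), HFCw X ∧ ¬ DuallyDiscrete X) := by
  refine ⟨?_, main⟩
  obtain ⟨P, hP, hne, h⟩ := Pool.Agent.Helper292.ForceCH.exists_forcing
  exact ⟨P, hP, hne, fun p => ⟨(h p).1, (h p).2.1⟩⟩

end Pool.Agent.Results.MP_63e8ca_gt.ConsistentlyNot
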